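import Pool.Agent.Run7.h350.KP13

/-!
Quasi-concave entire solutions of Fisher-KPP equations are one-dimensional.

Let `f ∈ C¹([0,1])`, `f(0) = f(1) = 0`, `f'(0) > 0` and `0 < f(s) ≤ f'(0) s` on `(0,1)`, and let
`v : ℝ × ℝ^N → [0,1]` be an entire classical solution of `v_t = Δ v + f(v)`. If `v(t,·)` is
quasi-concave at a time `t`, then `v(t,·)` is one-dimensional.
-/

open Set Filter Topology
open scoped ContDiff Laplacian

namespace Pool.Agent.Results.MP_75f8eb_an.QuasiConcaveOneDim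

/-- Fisher-KPP reaction terms: `f ∈ C¹([0,1])`, `f(0) = f(1) = 0`, `f'(0) > 0`,
`0 < f(s) ≤ f'(0) s` for `s ∈ (0,1)`. -/
structure FisherKPP (f : ℝ → ℝ) : Prop where
  contDiffOn : ContDiffOn ℝ 1 f (Icc 0 1)
  zero : f 0 = 0
  one : f 1 = 0
  deriv_pos : 0 < derivWithin f (Icc 0 1) 0
  pos : ∀ s ∈ Ioo (0:ℝ) 1, 0 < f s
  le : ∀ s ∈ Ioo (0:ℝ) 1, f s ≤ derivWithin f (Icc 0 1) 0 * s

/-- Entire classical solutions `v : ℝ × ℝ^N → [0,1]` of `v_t = Δ v + f(v)`: `v` is continuous,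
`v_t` exists and is continuous on `ℝ × ℝ^N`, `v(t,·)` is `C²` for every `t`, and the equation
holds everywhere. -/
structure IsEntireSolution {N : ℕ} (f : ℝ → ℝ) (v : ℝ → EuclideanSpace ℝ (Fin N) → ℝ) : Prop where
  mem_Icc : ∀ t x, v t x ∈ Icc (0:ℝ) 1
  continuous : Continuous (fun p : ℝ × EuclideanSpace ℝ (Fin N) => v p.1 p.2)
  differentiable_time : ∀ t x, DifferentiableAt ℝ (fun s => v s x) t
  continuous_deriv_time :
    Continuous (fun p : ℝ × EuclideanSpace ℝ (Fin N) => deriv (fun s => v s p.2) p.1)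
  contDiff_space : ∀ t, ContDiff ℝ 2 (v t)
  pde : ∀ t x, deriv (fun s => v s x) t = Δ (v t) x + f (v t x)

/-- quasi-concavity: all upper level sets are convex -/
def QuasiConcave {N : ℕ} (w : EuclideanSpace ℝ (Fin N) → ℝ) : Prop :=
  ∀ l : ℝ, Convex ℝ {x | l < w x}

/-- one-dimensional functions `w(x) = g(x · e)`, `e` a unit vector -/
def OneDimensional {N : ℕ} (w : EuclideanSpace ℝ (Fin N) → ℝ) : Prop :=
  ∃ e : EuclideanSpace ℝ (Fin N), ‖e‖ = 1 ∧ ∃ g : ℝ → ℝ, ∀ x, w x = g (inner ℝ x e)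

theorem result {N : ℕ} (hN : 1 ≤ N) (f : ℝ → ℝ) (hf : FisherKPP f)
    (v : ℝ → EuclideanSpace ℝ (Fin N) → ℝ) (hv : IsEntireSolution f v) (t : ℝ)
    (hq : QuasiConcave (v t)) : OneDimensional (v t) := by
  obtain ⟨L, hL⟩ := Run7.h350.KP.kf_of_kpp hf.contDiffOn hf.zero hf.one hf.deriv_pos hf.pos hf.le
  exact Run7.h350.KP.oned hL ⟨hv.mem_Icc, hv.continuous, hv.differentiable_time,
    hv.continuous_deriv_time, hv.contDiff_space, hv.pde⟩ hN hq

end Pool.Agent.Results.MP_75f8eb_an.QuasiConcaveOneDim
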